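import Pool.Agent.H858.AH.Two

/-!
# Almost all Hodge classes of fixed codimension on `Y × X ^ n` are absolutely Hodge

Let `X`, `Y` be smooth projective varieties over the complex numbers, `dim X > 0`. Let `h_n` and `a_n`
be the dimensions of the spaces of the Hodge classes and of the absolutely Hodge classes of degree `2 j`
on `Y × X ^ n`. The question Q1 in codimension `j` for `Y × X ^ n` is whether `a_n = h_n`. Put `c = 1`,
`L = 2 j` if `b_1(X) > 0` and `c = 2`, `L = j` if `b_1(X) = 0`, and let `b`, `b'` be the sums of the
Betti numbers of `X`, `Y`.

**Theorem.** If the Hodge classes in the leading Kunneth component `H^c(X) ⊗ ⋯ ⊗ H^c(X)` (`L` factors)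
are absolutely Hodge then

1. `(1 - 4 L b ^ (L - 1) b' / n) h_n ≤ a_n` for all `n ≥ 1`. So `a_n / h_n → 1`: almost all Hodge
   classes of codimension `j` on `Y × X ^ n` are absolutely Hodge, for **every** variety `Y`.
2. If all Hodge classes of codimension `j` on `Y × X ^ r` are absolutely Hodge for one
   `r ≥ max(L - 1, 1)`, then all Hodge classes of codimension `j` on all `Y × X ^ n`, `n ≥ r`, are
   absolutely Hodge.

The hypothesis is a theorem of Deligne if `b_1(X) > 0`, since then `c = 1` and the Hodge classes in
`H^1(X) ⊗ ⋯ ⊗ H^1(X)` are pulled back from the abelian variety `Alb(X) ^ L`. So the theorem is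
unconditional for all varieties `X` with `b_1(X) > 0`, all `Y` and all `j`. If `b_1(X) = 0` then `c = 2`;
the hypothesis is true for all `j` if `H^2(X)` is spanned by divisors, if `X` is a K3 surface (by the
construction of Kuga and Satake), and if `X` is dominated by a product of curves.

**Proof.** Write a Hodge class on `Y × X ^ n` in a basis of words. A word of degree `2 j` with at least
`L` nontrivial letters in the factors `X` consists of exactly `L` letters of the smallest degree `c`.
Let `T` be a set of `L` factors. The restriction of the class to `X ^ T`, by a section which is constant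
in the other factors, followed by the pull-back along the projection to `X ^ T`, is the part of the
class with the letters in `T`. So a Hodge class whose coefficients at the words with less than `L`
letters vanish is the sum of pull-backs of Hodge classes in the leading Kunneth component of `X ^ L`, and
it is absolutely Hodge. There are only `O(n ^ (L - 1))` words with less than `L` letters; but there are
at least `C(n, L)` independent Hodge classes, pulled back from one class on `X ^ L`. This proves 1. In the
same way the part of a Hodge class with `s < L` letters is the sum of its restrictions to the sets of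
`s` factors, which come from `Y × X ^ r`; this proves 2.
-/

open CategoryTheory AlgebraicGeometry

universe u

namespace Pool.Agent.Results.MP_4e1cf2_ag.AlmostAllHodgeClasses

open Pool.Agent.H914 Pool.Agent.Y163 VarClass Obj WeilCohomology Pool.Agent.Y121.AHS
  Pool.Agent.H858.AH

/-- **Almost all Hodge classes are absolutely Hodge.** -/
theorem result {k : Type u} [Field k] {𝒱 : VarClass k} {ops : CycleOps 𝒱} {T : HodgeTheory ops}
    (D : Conjugates T) (X Y : 𝒱.Obj)
    -- a constant morphism `X → X` and a morphism `X → Y`
    (κ : X ⟶ X) (hκ : IsConstant T.W κ) (ω : X ⟶ Y)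
    -- `c = 1`, `m + 1 = 2 j` if `b_1(X) > 0`, and `c = 2`, `m + 1 = j` if `b_1(X) = 0`
    (m c j : ℕ) (hL : IsLeading T X m c j)
    -- the leading Hodge classes of `X` are absolutely Hodge (known if `b_1(X) > 0`)
    (hA : LeadIsAbs D X m j) :
    (∀ n : ℕ, (1 - loss (m + 1) (bettiSum T.W X) (bettiSum T.W Y) (n + 1)) *
      hodgeRank T (Y.prod (pw X n)) j ≤ absRank D (Y.prod (pw X n)) j) ∧
    (∀ r n : ℕ, m ≤ r + 1 → r ≤ n →
      (∀ x, IsHodge T (Y.prod (pw X r)) j x → IsAbsHodge D (Y.prod (pw X r)) j x) →
      ∀ x, IsHodge T (Y.prod (pw X n)) j x → IsAbsHodge D (Y.prod (pw X n)) j x) :=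
  ⟨fun n => main hL hA hκ ω n, fun _ _ hmr hrn h x hx => two hL hA hκ ω hmr hrn h x hx⟩

end Pool.Agent.Results.MP_4e1cf2_ag.AlmostAllHodgeClasses
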