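import Pool.Agent.H847.PG.NLaw

/-!
# Hodge classes and absolutely Hodge classes on the powers of a variety: exact orders of growth

Let `X` be a smooth projective complex variety and `b` the sum of its Betti numbers. For all `n` let

* `h n` be the number of the linearly independent Hodge classes (of all codimensions) on `X ^ (n + 1)`;
* `s n` the number of the linearly independent absolutely Hodge classes on `X ^ (n + 1)`.

The conjecture of Deligne says that `s n = h n`.

Theorem (for every `X`, without any conjecture). There are natural numbers `d ≤ a` such that:

1. `h n` has the exact order of growth `b ^ n * n ^ (- d / 2)`, and `d` is the dimension of the group of the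
   linear automorphisms of `H(X, ℂ)` which fix the Hodge classes on all powers of `X` (the Hodge group, or
   special Mumford-Tate group): the space of the functions on this group which are given by homogeneous
   polynomials of degree `n` in the entries of the matrices has the exact order of growth `n ^ d`.
2. `s n` has the exact order of growth `b ^ n * n ^ (- a / 2)`, and `a` is in the same way the dimension of the
   group which fixes the absolutely Hodge classes on all powers of `X` (the Galois group of the motive of
   `X` for absolutely Hodge cycles, without the Tate twist).
3. So `h n / s n` has the exact order of growth `n ^ ((a - d) / 2)`.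
4. `a = d` if and only if there is a natural number `N` with `h n = (N + O(1 / n)) s n`; then `N = 1` if and only
   if all Hodge classes on all powers of `X` are absolutely Hodge.

In particular, either `h n = (N + O(1 / n)) s n`, or `h n ≥ c n ^ (1 / 2) s n` for some `c > 0` and ALL `n`: nothing
between a bounded index and the square root of `n` is possible, and in the second case almost no Hodge
class on the powers of `X` is absolutely Hodge.

The hypotheses. `T` is the cohomology `X ↦ H(X, ℚ)` with its Hodge decomposition, `D` the family of the
conjugate theories `X ↦ H(X^σ, ℚ)`, `σ ∈ Aut(ℂ)`, with the comparison isomorphisms given by de Rham cohomology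
and by `ℓ`-adic cohomology (for all `ℓ`, at the same time). `Effective`: the Hodge numbers
`h ^ (p, q)` with a negative index vanish. `PolarisedByAbs`: complex conjugation exchanges the types `(p, q)`
and `(q, p)`, and the Hodge structure `H(X)` has a polarisation which is given by a sum of absolutely
Hodge classes on `X × X`. All these hypotheses are known for all `X` (for the last one: the Lefschetz decomposition is
given by absolutely Hodge correspondences).

The proof. A polarisation gives a hermitian form on `H(X, ℂ)`, and the tensors given by the
absolutely Hodge classes on the powers are the invariants of a compact group of matrices. The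
dimensions of the spaces of the invariants of a compact group in the tensor powers of a representation
which contains a fixed vector have an exact order of growth, whose exponent is the dimension of
the group; the group need not be connected. The rate `O(1 / n)` comes from the central limit theorem
with its first error term, and the square root from the fact that dimensions are integers.
-/

set_option autoImplicit false

open CategoryTheory AlgebraicGeometry

universe u

namespace Pool.Agent.Results.MP_4e1cf2_ag.ExactOrdersOnPowers

open Pool.Agent.H914 VarClass Obj WeilCohomology
open Pool.Agent.Y121.AHS (HL IsType HodgeTheory IsHodge Conjugates IsAbsHodge)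
open Pool.Agent.H847.PN
open Pool.Agent.Y163 (pw)

variable {k : Type u} [Field k] {𝒱 : VarClass k} {ops : CycleOps 𝒱}

/-- The spaces `H ^ (p, q)(Y)` with `p < 0` or `q < 0` vanish: they have at most one element. -/
def Effective (T : HodgeTheory ops) : Prop :=
  ∀ (Y : 𝒱.Obj) p q (x y : HL T.W ℂ Y), p < 0 ∨ q < 0 → IsType T.pq p q x → IsType T.pq p q y →
    x = y

/-- The Hodge structure `H(X)` has a polarisation which is given by a sum of absolutely Hodge classes
on `X × X`. -/
def PolarisedByAbs {T : HodgeTheory ops} (D : Conjugates T) (X : 𝒱.Obj) : Prop :=
  HasPol (fun p q x => IsType (X := X) T.pq p q x) (T.W.tr (X.prod X)) (T.W.map (fst X X))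
    (T.W.map (snd X X)) {c | ∃ j, IsAbsHodge D (X.prod X) j c}

/-- **Exact orders of growth of the Hodge classes and of the absolutely Hodge classes on the
powers of a variety.** -/
theorem result (T : HodgeTheory ops) (hT : Effective T) (D : Conjugates T) (X : 𝒱.Obj)
    [Nontrivial (T.W.H X)] (hD : PolarisedByAbs D X) (b : ℝ) (hb : b = Module.finrank T.W.K (T.W.H X))
    (h s : ℕ → ℕ) (hh : ∀ n, h n = num (IsHodge T) (pw X n))
    (hs : ∀ n, s n = num (IsAbsHodge D) (pw X n)) :
    ∃ d a : ℕ, d ≤ a ∧
      HasOrder (fun n => b ^ n * ((n : ℝ) + 1) ^ (-(d : ℝ) / 2)) h ∧
      HasOrder (fun n => ((n : ℝ) + 1) ^ d) (groupDim (IsHodge T) X) ∧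
      HasOrder (fun n => b ^ n * ((n : ℝ) + 1) ^ (-(a : ℝ) / 2)) s ∧
      HasOrder (fun n => ((n : ℝ) + 1) ^ a) (groupDim (IsAbsHodge D) X) ∧
      HasOrder (fun n => ((n : ℝ) + 1) ^ (((a : ℝ) - d) / 2) * s n) h ∧
      (a = d ↔ ∃ N, 1 ≤ N ∧
        (N = 1 ↔ ∀ n j c, IsHodge T (pw X n) j c → IsAbsHodge D (pw X n) j c) ∧
        NearIndex N h s) := by
  obtain rfl := hb
  obtain rfl := funext hh
  obtain rfl := funext hs
  exact abs_growth T hT X D hD

end Pool.Agent.Results.MP_4e1cf2_ag.ExactOrdersOnPowers
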