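import Mathlib
import Pool.Agent.H855.HG.Vectors
import Pool.Agent.H855.HG.Abs

/-!
# Hodge classes and absolute Hodge classes on the products of **every** variety with the varieties of CM
type: finitely many exceptional vectors

Let `K i` (`i` in any set `I`) be CM fields, for instance **all** CM fields. A function `v` on the
complex embeddings of a field is odd if `v (conj φ) = - v φ`. A CM type `Φ` of `K i` is the same
thing as the odd function `x` with the value `1` on `Φ` and `- 1` on the conjugate embeddings. Let
`w i / 2` be a lower bound for the dimensions of the nonzero spaces of odd rational functions on the
embeddings of `K i` which are stable under the automorphisms of `ℂ`: `w i = 2` is always possible,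
and `w i = [K i : ℚ]` if the space of all odd functions is irreducible (`IsWeight`).

**Types.** Let `Y` be a smooth projective complex variety. The Hodge operator on its cohomology is
the multiplication by `p - q` on `H^(p, q)` (`HodgeSpace`). A vector `w` of `H(Y, ℂ)` has the types
`d` if for each automorphism `σ` of the field `ℂ` the conjugate `σ w` (the conjugate of the
coordinates in a rational basis) is a sum of classes of types `(p, q)` with `p - q = d σ`
(`HasTypes`). These vectors generate the part of CM type of the cohomology (`cmPart`). The types of
a rational Hodge class are `d = 0`.

**The varieties `X`.** Let `x j` be integral odd functions on the complex embeddings of fields `L
j`, each one of the `K i`, `j` in a finite set. Let `X` be a smooth projective complex variety of CM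
type, that is with a commutative Mumford-Tate group; this means that `H(X, ℂ)` is generated by
vectors with types (`IsOfCMType`). We suppose that for all vectors with types `d` a multiple of `d`
is a sum `σ ↦ ∑ m (j, ψ) * x j (σ ψ)` over the embeddings `ψ` of the fields `L j` (`IsGeneratedBy`).
For instance `X` can be **any** abelian variety isogenous to a product of powers of the abelian
varieties of CM types `(L j, Φ j)`, or a variety whose cohomology is built from the cohomology of
such abelian varieties, like the Fermat hypersurfaces, or K3 surfaces with complex multiplication.
**Every** `X` of CM type is obtained in this way from suitable CM fields. The Hodge classes on `X`
can be exotic (not polynomials in divisor classes).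

**The theorem.** For every `Y` there is a finite set `E` of pairs `(i, v)`, where `v` is an odd
function, not zero, on the complex embeddings of `K i`, which depends only on the Hodge structure of
the cohomology of `Y` and the fields `K i`, with the following properties (`IsSmallFor`).

* The vectors `v` come from the types of the cohomology of `Y`: the functions `σ ↦ v (σ φ)` are
  linear combinations of the translates of the types `d` of one vector.
* `∑ w i + h ≤ c`, the sum over the elements `(i, v)` of `E`, where `h` is the dimension of the
  space of the Hodge classes, and `c` is the dimension of the part of CM type, of the cohomology of
  `Y`. So `E` has at most `(b - h) / 2` elements, where `b` is the dimension of the cohomology of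
  `Y` (the sum of the Betti numbers of `Y`), and `E` is **empty** if the part of CM type of the
  cohomology of `Y` consists of Hodge classes, or if `w i > b - h` for all `i`.
* For all families `x j` such that no vector `v` of `E` is a combination of the `x j`, and for
  **all** `X` as above, the following is true.
  1. Every Hodge class on `X × Y` is a sum of products of Hodge classes on `X` and `Y`
     (`IsHodgeOfProducts`).
  2. **All Hodge classes on `X × Y` are absolute Hodge classes if and only if this is true for `X`
     and for `Y`.**
  3. If all Hodge classes on `X` are absolute, for instance if `X` is an abelian variety (Deligne),
     then the absolute Hodge classes of codimension `j` on `X × Y` are **exactly** the sums of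
     products of Hodge classes of codimension `i` on `X` and absolute Hodge classes of codimension
     `j - i` on `Y`; and all Hodge classes of codimension `j` on `X × Y` are absolute if and only if
     this is true for `Y` in the codimensions `j - i`, for all `i` such that there are nonzero Hodge
     classes of codimension `i` on `X` (`AbsoluteOnProducts`).

A vector `v` on the embeddings of a field `K` is a combination of the `x j` (`IsComb`) if it is the
sum of the images of the `x j` under equivariant maps: `v φ = ∑ t φ (j, ψ) * x j ψ` with rational
numbers `t φ (j, ψ)` which are invariant under the automorphisms of `ℂ`, odd in `ψ`, and zero if the
fields `K` and `L j` are unrelated (there are no nonzero equivariant maps between their odd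
functions). So if the fields of the elements of `E` are unrelated to the `L j` the condition is
satisfied; and if the odd functions on the embeddings of `K i` are absolutely irreducible an element
`(i, v)` excludes at most one CM type `Φ` of `K i` and its conjugate, for the varieties `X`
generated by one CM type of `K i`. (Exceptions are necessary: `X` and `Y` can have common simple
factors of their cohomology, and then there are Hodge classes on `X × Y` which are not sums of
products.)

So question 1 for `X × Y` is reduced to `Y`, if `X` is for instance an abelian variety of CM type,
although the Hodge classes on `X × Y` are not known to be algebraic. If moreover `dim Y ≤ 3` then
all Hodge classes on `Y` are algebraic, hence absolute (theorem of Lefschetz on divisor classes and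
hard Lefschetz theorem), so that for all `Y` of dimension at most three, with arbitrary Hodge
numbers, and for all abelian varieties `X` of CM type outside of the exceptional vectors all Hodge
classes on `X × Y` are absolute.

The results `CMTypesTimes` (library) and `SmallCoreFields` of this run are about products of copies
of the abelian varieties of almost all CM types, respectively of nondegenerate CM types of special
fields, and varieties `Y` unrelated to the fields, where all Hodge classes on the first factor are
polynomials in divisor classes. Here there is no condition on the CM types and on `Y` besides the
one that finitely many vectors are not combinations.

The framework (`Conjugates`): the rational cohomology groups of a variety `Z` and of all its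
conjugates `Z^s` with their Hodge operators, and for the components `t` of the cohomology (the de
Rham component and the étale component with coefficients in the ring of finite adeles) the
comparison isomorphism given by the conjugation, compatible with products (theorem of Künneth). A
class `x` of codimension `j` is an absolute Hodge class (`absIn`) if it is a Hodge class and for
each `s` there is **one** Hodge class `y` on `Z^s` which is the conjugate of `x` in all components,
where the conjugation includes the twist by the `j`-th power of the conjugate of `2 π i`.

The proof. The spaces of the vectors with given types `d`, for different `d`, are linearly
independent, since they are common eigenspaces of the operators `σ⁻¹ z σ`, where `z` is the Hodge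
operator; so there are only finitely many `d` for `Y`, at most `c - h` nonzero ones
(`typeSpace_indep`, `card_types`). Take a basis `e k` of `H(X, ℂ)` of vectors with types `d k`, and
write a Hodge class on `X × Y` as `∑ e k ⊗ y k`. Since it is rational its conjugates are the same
class `∑ σ (e k) ⊗ σ (y k)`, so that the `y k` have the types `- d k` (`kunneth`). Some multiple of
`d k` is a sum of values `x j (σ ψ)`; since the functions `x j` are odd, `- d k` is the value of an
odd relation with rational coefficients. For each `d` up to translation which is such a value for
some family, there is one vector `v` (`exists_vector`) whose translates are combinations of the
translates of `d`; and if another family has `d` as a value of a relation then `v` is a combination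
of that family (`isComb_of`: one projects orthogonally to the space of the trivial relations). So
outside of the exceptional vectors `d k = 0` or `y k = 0` for all `k`. Then the class is killed by
the Hodge operators of both factors, and it is a sum of products of Hodge classes. The estimate: the
translates of `d` generate a space of dimension at least `w i / 2`, and they come in pairs `d`, `-
d` (`two_finrank_le`).
-/

set_option autoImplicit false

namespace Pool.Agent.Results.MP_4e1cf2_ag.TimesCMVarieties

open NumberField Pool.Agent.H855.CM Pool.Agent.H855.HG

/-- **For every smooth projective variety `Y`: Hodge classes on `X × Y` are sums of products, all Hodge
classes on `X × Y` are absolute if and only if those on `X` and `Y` are, and the absolute Hodge classes on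
`X × Y` are determined by those on `Y`, for all varieties `X` of CM type outside of at most `(b - h) / 2`
exceptional vectors.** -/
theorem result {I : Type} (K : I → Type) [∀ i, Field (K i)] [∀ i, NumberField (K i)]
    [∀ i, IsCMField (K i)] (w : I → ℕ) (hw : ∀ i, IsWeight (K i) (w i)) (B : Type) [Fintype B]
    (Y : HodgeSpace B) :
    ∃ E : Finset (Σ i, ((K i →+* ℂ) → ℝ)), IsSmallFor w Y E ∧
      ForAllOfCMType K E (fun _ _ X => IsHodgeOfProducts X Y ∧ AbsoluteOnProducts X Y) := by
  obtain ⟨E, hE, h⟩ := exists_vectors K w hw Y
  exact ⟨E, hE, h _ fun _ _ X hX => ⟨hX, absoluteOnProducts hX⟩⟩

end Pool.Agent.Results.MP_4e1cf2_ag.TimesCMVarieties
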